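import Pool.Agent.Lib.helper9.PSAut

namespace Pool.Agent.Results.MP_76b05e_lc.PSPACE

open Pool.Agent.Cx Polynomial

/-- yes-instances `(m, δ, P)` of REACHABLE SUBSET with subset size `k` -/
def RS (k : ℕ) (I : ℕ × List (List ℕ) × List ℕ) : Prop :=
  IsTab I.1 I.2.1 ∧ I.2.2.Nodup ∧ I.2.2.length = k ∧
    ∃ w : List ℕ, (∀ x ∈ w, x < I.1) ∧ ∀ p, p ∈ I.2.2 ↔ ∃ q < I.2.1.length, run I.2.1 q w = p

lemma ps (k : ℕ) : PS (RS k) := by
  let R : ℕ × List (List ℕ) × List ℕ → List ℕ → List ℕ → Bool := fun a u v =>
    (List.range a.1).any fun x => v == img a.2.1 u x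
  have h := (PS.reach (s := fun a : ℕ × List (List ℕ) × List ℕ => List.range a.2.1.length)
    (t := fun a => (List.range a.2.1.length).filter a.2.2.contains) (R := R) (by fun_prop)
    (by fun_prop) (by simp only [R, img]; fun_prop) (X * (C 2 * X + C 2) + 1) (fun _ h => h)
    (fun a h => ?_)).and (f := fun a => (a.2.1.all fun r => r.length == a.1 &&
      r.all fun e => decide (e < a.2.1.length)) && decide a.2.2.Nodup && a.2.2.length == k &&
      a.2.2.all fun e => decide (e < a.2.1.length)) (by fun_prop)
  · refine h.red PT.id fun ⟨m, δ, P⟩ => ?_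
    simp only [RS, Bool.and_eq_true, List.all_eq_true, beq_iff_eq, decide_eq_true_eq, R,
      List.any_eq_true, List.mem_range]
    constructor
    · rintro ⟨h1, h2, h3, w, h4, h5⟩
      refine ⟨⟨⟨⟨h1, h2⟩, h3⟩, fun p hp => ?_⟩, ?_⟩
      · obtain ⟨q, hq, rfl⟩ := (h5 p).1 hp
        exact h1.run_lt hq w h4
      have e : (List.range δ.length).filter P.contains = im δ w :=
        List.filter_congr fun p _ => by rw [Bool.eq_iff_iff]; simpa using h5 p
      rw [e]
      clear e h5
      induction w using List.reverseRecOn with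
      | nil => rw [im_nil]
      | append_singleton w x ih =>
        have hw : ∀ y ∈ w, y < m := fun y hy => h4 y (by simp [hy])
        exact (ih hw).tail ⟨x, h4 x (by simp), im_snoc h1 hw x⟩
    · rintro ⟨⟨⟨⟨h1, h2⟩, h3⟩, h4⟩, h5⟩
      obtain ⟨w, a, b⟩ : ∃ w : List ℕ, (∀ x ∈ w, x < m) ∧
          (List.range δ.length).filter P.contains = im δ w := by
        generalize (List.range δ.length).filter P.contains = t at h5
        induction h5 with
        | refl => exact ⟨[], by simp, (im_nil δ).symm⟩
        | tail _ h ih =>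
          obtain ⟨w, a, rfl⟩ := ih
          obtain ⟨x, hx, rfl⟩ := h
          exact ⟨w ++ [x], by simpa [or_imp, forall_and, hx] using a, (im_snoc h1 a x).symm⟩
      refine ⟨h1, h2, h3, w, a, fun p => ⟨fun hp => (mem_im.1 ?_).2, ?_⟩⟩
      · rw [← b]; simpa [hp] using h4 p hp
      · rintro ⟨q, hq, e⟩
        have := mem_im.2 ⟨e ▸ IsTab.run_lt h1 hq w a, q, hq, e⟩
        rw [← b] at this
        simp only [List.mem_filter, List.contains_iff_mem] at this
        exact this.2
  · have b : size (List.range a.2.1.length) ≤ (X * (C 2 * X + C 2) + 1 : ℕ[X]).eval (size a) := by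
      obtain ⟨m, δ, P⟩ := a
      have := size_range δ.length
      have := length_lt_size δ
      have : δ.length ≤ size (m, δ, P) := by simp only [size_pair]; omega
      simp only [eval_add, eval_mul, eval_X, eval_C, eval_one]
      nlinarith
    refine ⟨b, Relation.ReflTransGen.mono (fun u v h => And.intro h ?_) _ _ h⟩
    simp only [R, List.any_eq_true, beq_iff_eq] at h
    obtain ⟨x, -, rfl⟩ := h
    exact (size_le_of_sublist List.filter_sublist).trans b

def aut (k : ℕ) (I : List Act × List (ℕ × ℕ)) (q x : ℕ) : ℕ :=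
  bif decide (q < k) then (bif q == 1 && x == 0 then 0 else q)
  else bif q == k then (bif x == 0 then 0 else k)
  else bif q == k + 1 then (bif x == 0 then k + 2 else 0)
  else bif q == k + 2 then (bif x == 0 then 0 else bif x == 1 then 1 else k + 2)
  else vstep I (k + 3) (size I) k q x

def red (k : ℕ) (I : List Act × List (ℕ × ℕ)) : ℕ × List (List ℕ) × List ℕ :=
  (I.1.length + 2, tab (k + 3 + size I * size I) (I.1.length + 2) (aut k I), List.range k)

section
variable (k : ℕ) (I : List Act × List (ℕ × ℕ)) (x : ℕ)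

lemma a1 {q : ℕ} (h : q < k) : aut k I q x = if q = 1 ∧ x = 0 then 0 else q := by
  simp [aut, h, Bool.cond_eq_ite]
lemma a2 : aut k I k x = if x = 0 then 0 else k := by simp [aut, Bool.cond_eq_ite]
lemma a3 : aut k I (k + 1) x = if x = 0 then k + 2 else 0 := by simp [aut, Bool.cond_eq_ite]
lemma a4 : aut k I (k + 2) x = if x = 0 then 0 else if x = 1 then 1 else k + 2 := by
  simp [aut, Bool.cond_eq_ite]
lemma a5 (q x : ℕ) (h : k + 3 ≤ q) : aut k I q x = vstep I (k + 3) (size I) k q x := by
  simp [aut, Bool.cond_eq_ite, show ¬ q < k by omega, show q ≠ k by omega,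
    show q ≠ k + 1 by omega, show q ≠ k + 2 by omega]

end

lemma five (k q : ℕ) : q < k ∨ q = k ∨ q = k + 1 ∨ q = k + 2 ∨ k + 3 ≤ q := by omega

lemma red_iff {k : ℕ} (hk : 2 ≤ k) (I : List Act × List (ℕ × ℕ)) : Plan I ↔ RS k (red k I) := by
  have cl : ∀ q < k + 3 + size I * size I, ∀ x < I.1.length + 2,
      aut k I q x < k + 3 + size I * size I := fun q hq x _ => by
    rcases five k q with h | rfl | rfl | rfl | h
    · rw [a1 _ _ _ h]; split_ifs <;> omega
    · rw [a2]; split_ifs <;> omega
    · rw [a3]; split_ifs <;> omega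
    · rw [a4]; split_ifs <;> omega
    · have := vstep_mem I (k + 3) k x h hq
      rw [a5 _ _ _ _ h]; omega
  have fx : ∀ (w : List ℕ) q, (∀ x ∈ w, aut k I q x = q) → w.foldl (aut k I) q = q := by
    intro w q h
    induction w with
    | nil => rfl
    | cons x w ih => rw [List.foldl_cons, h x (by simp)]; exact ih fun y hy => h y (by simp [hy])
  have f0 : ∀ (w : List ℕ) q, q < k → q ≠ 1 → w.foldl (aut k I) q = q := fun w q a b =>
    fx w q fun x _ => by simp [a1 _ _ _ a, b]
  have r0 : ∀ i < size I, ∀ a < size I, aut k I (k + 3 + i * size I + a) 0 = k + 3 + i * size I :=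
    fun i _ a ha => by rw [a5 _ _ _ _ (by omega), vstep_eq I _ _ _ (σ := fun _ => a) ha]; simp
  simp only [RS, red, tab_length, List.length_range, List.nodup_range, isTab_tab cl, true_and,
    List.mem_range]
  constructor
  · intro h
    obtain ⟨w, a, b⟩ := plan_word (a5 k I) h
    have hw : ∀ x ∈ 0 :: (w ++ [1]), x < I.1.length + 2 := by
      simpa [or_imp, forall_and] using fun x hx => (a x hx).2
    have f1 : w.foldl (aut k I) (k + 2) = k + 2 := fx w _ fun x hx => by
      have := a x hx
      rw [a4, if_neg (by omega), if_neg (by omega)]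
    have e : ∀ q < k + 3 + size I * size I,
        run (tab (k + 3 + size I * size I) (I.1.length + 2) (aut k I)) q (0 :: (w ++ [1])) =
        aut k I (w.foldl (aut k I) (aut k I q 0)) 1 := fun q hq => by
      rw [run_tab cl _ _ hq hw]; simp
    refine ⟨_, hw, fun p => ⟨fun hp => ?_, ?_⟩⟩
    · by_cases h1 : p = 1
      · exact ⟨k + 1, by omega, by rw [e _ (by omega)]; simp [a3, f1, a4, h1]⟩
      · exact ⟨p, by omega, by rw [run_tab cl _ _ (by omega) hw, f0 _ _ hp h1]⟩
    · rintro ⟨q, hq, rfl⟩
      have z : aut k I (w.foldl (aut k I) 0) 1 < k := by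
        rw [f0 w 0 (by omega) (by omega), a1 _ _ _ (by omega)]; simp; omega
      rcases five k q with h | rfl | rfl | rfl | h
      · by_cases h1 : q = 1
        · rwa [e q hq, a1 _ _ _ h, if_pos ⟨h1, rfl⟩]
        · rwa [run_tab cl _ _ hq hw, f0 _ _ h h1]
      · rwa [e _ hq, a2, if_pos rfl]
      · rw [e _ hq]; simp [a3, f1, a4]; omega
      · rwa [e _ hq, a4, if_pos rfl]
      · have hn := size_pos I
        have := Nat.div_add_mod' (q - (k + 3)) (size I)
        have hi : (q - (k + 3)) / size I < size I := Nat.div_lt_of_lt_mul (by omega)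
        have := r0 _ hi _ (Nat.mod_lt (q - (k + 3)) hn)
        rw [show k + 3 + (q - (k + 3)) / size I * size I + (q - (k + 3)) % size I = q by omega]
          at this
        rw [e q hq, this, b _ hi]
        omega
  · rintro ⟨w, hw, h⟩
    have yp : ∀ v : List ℕ, v.foldl (aut k I) k = k ∨
        (v.foldl (aut k I) 1 = 0 ∧ v.foldl (aut k I) (k + 2) = 0) := by
      intro v
      induction v with
      | nil => exact Or.inl rfl
      | cons x v ih =>
        simp only [List.foldl_cons, a2, a4, a1 k I x hk]
        by_cases h0 : x = 0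
        · simp [h0, f0 v 0 (by omega) (by omega)]
        · by_cases h1 : x = 1 <;> simp only [h0, h1, if_false, if_true, and_false, one_ne_zero] <;>
            tauto
    have nv : ∀ (v : List ℕ) q, (q = 0 ∨ q = k ∨ (k + 3 ≤ q ∧ q < k + 3 + size I * size I)) →
        v.foldl (aut k I) q ≠ 1 := by
      intro v
      induction v with
      | nil => intro q hq; simp only [List.foldl_nil]; omega
      | cons x v ih =>
        intro q hq
        refine ih _ ?_
        rcases hq with rfl | rfl | h
        · simp [a1 k I x (show 0 < k by omega)]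
        · rw [a2]; split_ifs <;> simp
        · rw [a5 _ _ q x h.1]; exact vstep_mem I (k + 3) k x h.1 h.2
    have inP : ∀ q < k + 3 + size I * size I, w.foldl (aut k I) q < k := fun q hq =>
      (h _).2 ⟨q, hq, run_tab cl _ _ hq hw⟩
    obtain ⟨q, hq, e⟩ := (h 1).1 (by omega)
    rw [run_tab cl _ _ hq hw] at e
    have a := (yp w).resolve_left (inP k (by omega)).ne
    obtain rfl : q = k + 1 := by
      by_contra h'
      by_cases h1 : q = 1 ∨ q = k + 2
      · rcases h1 with rfl | rfl <;> omega
      by_cases h2 : q < k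
      · rw [f0 w q h2 (by omega)] at e; omega
      · exact nv w q (by omega) e
    obtain _ | ⟨x, w⟩ := w
    · simp at a
    simp only [List.foldl_cons] at e inP
    obtain rfl : x = 0 := by
      by_contra h'
      exact nv w _ (by simp [a3, h']) e
    rw [a3, if_pos rfl] at e
    obtain ⟨u, v, rfl, hu⟩ : ∃ u v, w = u ++ 1 :: v ∧ ∀ x ∈ u, 2 ≤ x := by
      clear inP hw h a
      induction w with
      | nil => simp at e
      | cons x w ih =>
        rw [List.foldl_cons, a4] at e
        by_cases h1 : x = 1
        · exact ⟨[], w, by simp [h1], by simp⟩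
        by_cases h0 : x = 0
        · exact absurd e (nv w _ (by simp [h0]))
        rw [if_neg h0, if_neg h1] at e
        obtain ⟨u, v, rfl, hu⟩ := ih e
        exact ⟨x :: u, v, rfl, by simpa [show 2 ≤ x by omega] using hu⟩
    refine word_plan (a5 k I) (y := k) (fun x hx => by rw [a2, if_neg (by omega)]) u
      (fun x hx => ⟨hu x hx, hw x (by simp [hx])⟩) fun i hi e' => ?_
    have c := inP (k + 3 + i * size I + 0) (by nlinarith)
    rw [List.foldl_append, List.foldl_cons] at c e
    rw [r0 i hi 0 (size_pos I), e'] at c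
    rw [fx u _ (fun x hx => by have := hu x hx; rw [a4, if_neg (by omega), if_neg (by omega)]),
      a4, if_neg (by omega), if_pos rfl] at e
    have := yp v
    omega

theorem result (k : ℕ) (hk : 2 ≤ k) :
    PSPACEComplete (Lang (RS k)) ∧ (InP (Lang (RS k)) → ∀ L, InPSPACE L → InP L) :=
  have h : HardPS (RS k) := hardPS_plan.red (by unfold red tab aut; fun_prop) (red_iff hk)
  ⟨⟨(ps k).inPSPACE, h.hard⟩, h.p_eq⟩

end Pool.Agent.Results.MP_76b05e_lc.PSPACE
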